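import Mathlib
import Pool.Agent.H544R3.RankStab

/-!
# The threshold constant in the definition of linear sofic groups is one half

Over every field `K` and for every `ε > 0`, the class of (countable) groups that are
`ε`-approximable by `GL(n, K)` with the normalised rank distance coincides with the class of
`1/4`-approximable (that is, linear sofic) groups if and only if `ε ≤ 1/2`.
-/

set_option autoImplicit false

universe u v

namespace Pool.Agent.Results.MP_7f7a01_al.Threshold

/-- The normalised rank distance `rank (A - B) / n` on `GL(n, K)`. -/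
noncomputable def rankDist {K : Type u} [Field K] {n : ℕ} (A B : GL (Fin n) K) : ℝ :=
  (((A : Matrix (Fin n) (Fin n) K) - (B : Matrix (Fin n) (Fin n) K)).rank : ℝ) / n

/-- `G` is `ε`-approximable by `(GL(n, K), d_rank)`: for every finite `F ⊆ G` and `δ > 0` there
are `n ≥ 1` and a map `φ : G → GL(n, K)` with `d(φ g φ h, φ (g h)) < δ` for `g, h ∈ F` and
`d(φ g, φ h) > ε - δ` for distinct `g, h ∈ F`. -/
def Approximable (K : Type u) [Field K] (G : Type v) [Group G] (ε : ℝ) : Prop :=
  ∀ (F : Finset G) (δ : ℝ), 0 < δ → ∃ (n : ℕ) (φ : G → GL (Fin n) K), 0 < n ∧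
    (∀ g ∈ F, ∀ h ∈ F, rankDist (φ g * φ h) (φ (g * h)) < δ) ∧
    (∀ g ∈ F, ∀ h ∈ F, g ≠ h → ε - δ < rankDist (φ g) (φ h))

open Module Pool.Agent.H544R3

variable {K : Type u} [Field K] {G : Type v} [Group G]

theorem Approximable.mono {ε ε' : ℝ} (h : ε ≤ ε') (H : Approximable K G ε') :
    Approximable K G ε := by
  intro F δ hδ
  obtain ⟨n, φ, hn, h1, h2⟩ := H F δ hδ
  exact ⟨n, φ, hn, h1, fun g hg k hk hne => lt_of_le_of_lt (by linarith) (h2 g hg k hk hne)⟩

theorem Approximable.half {c : ℝ} (hc : 0 < c) (H : Approximable K G c) :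
    Approximable K G (1 / 2) := by
  intro F δ hδ
  obtain ⟨δ', hδ', key⟩ := amplify.{u, v} (K := K) F c δ hc hδ
  obtain ⟨n, φ, hn, h1, h2⟩ := H F δ' hδ'
  obtain ⟨V', i1, i2, i3, φ', g0, g1, g2⟩ := key (Fin n → K) inferInstance inferInstance
    inferInstance (fun g => toAut n (φ g)) (by rw [Module.finrank_fin_fun]; exact hn)
    (by
      intro g hg k hk
      rw [← map_mul, dd_toAut]
      exact h1 g hg k hk)
    (by
      intro g hg k hk hne
      rw [dd_toAut]
      exact h2 g hg k hk hne)
  obtain ⟨Θ, hΘ1, hΘ2⟩ := exists_toGL (K := K) V'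
  refine ⟨finrank K V', fun g => Θ (φ' g), g0, ?_, ?_⟩
  · intro g hg k hk
    show Pool.Agent.H544R3.rankDist (Θ (φ' g) * Θ (φ' k)) (Θ (φ' (g * k))) < δ
    rw [← hΘ1, hΘ2]
    exact g1 g hg k hk
  · intro g hg k hk hne
    show 1 / 2 - δ < Pool.Agent.H544R3.rankDist (Θ (φ' g)) (Θ (φ' k))
    rw [hΘ2]
    exact g2 g hg k hk hne

theorem approximable_of_fintype [Fintype G] : Approximable K G (1 / 2) := by
  have hN : (0 : ℝ) < 1 / Fintype.card G := by
    have : 0 < Fintype.card G := Fintype.card_pos
    positivity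
  refine Approximable.half hN ?_
  intro F δ hδ
  obtain ⟨Θ, hΘ1, hΘ2⟩ := exists_toGL (K := K) (G → K)
  refine ⟨finrank K (G → K), fun g => Θ (regRep K g), ?_, ?_, ?_⟩
  · rw [Module.finrank_fintype_fun_eq_card]
    exact Fintype.card_pos
  · intro g _ k _
    show Pool.Agent.H544R3.rankDist (Θ (regRep K g) * Θ (regRep K k)) (Θ (regRep K (g * k))) < δ
    rw [← hΘ1, hΘ2, regRep_mul, dd_self]
    exact hδ
  · intro g _ k _ hne
    show 1 / (Fintype.card G : ℝ) - δ <
      Pool.Agent.H544R3.rankDist (Θ (regRep K g)) (Θ (regRep K k))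
    rw [hΘ2]
    have := dd_regRep (K := K) g k hne
    linarith

theorem not_approximable [Fintype G] (hP : HB K G) {ε : ℝ}
    (hε : (Fintype.card G : ℝ) / 2 < (Fintype.card G - 1) * ε) : ¬ Approximable K G ε := by
  classical
  intro H
  set N : ℝ := (Fintype.card G : ℝ) with hN
  have hN1 : 1 ≤ N := by
    have : 0 < Fintype.card G := Fintype.card_pos
    rw [hN]
    exact_mod_cast this
  set t : ℝ := (N - 1) * ε - N / 2 with ht
  have ht0 : 0 < t := by linarith
  have hden : 0 < 2 * (N + N ^ 3) := by positivity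
  obtain ⟨n, φ, hn, h1, h2⟩ := H Finset.univ (t / (2 * (N + N ^ 3))) (div_pos ht0 hden)
  set δ : ℝ := t / (2 * (N + N ^ 3)) with hδ
  have hδ0 : 0 < δ := div_pos ht0 hden
  have h3 := avg_bound hP (Fin n → K) (fun g => toAut n (φ g))
    (by rw [Module.finrank_fin_fun]; exact hn) δ (by
      intro g k
      rw [← map_mul, dd_toAut]
      exact (h1 g (Finset.mem_univ _) k (Finset.mem_univ _)).le)
  rw [← hN] at h3
  have h4 : (N - 1) * (ε - δ) ≤ ∑ g, dd (toAut n (φ g)) (toAut n (φ 1)) := by
    rw [← Finset.add_sum_erase _ _ (Finset.mem_univ (1 : G))]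
    have h5 : ∑ _g ∈ Finset.univ.erase (1 : G), (ε - δ) ≤
        ∑ g ∈ Finset.univ.erase (1 : G), dd (toAut n (φ g)) (toAut n (φ 1)) := by
      apply Finset.sum_le_sum
      intro g hg
      rw [dd_toAut]
      exact (h2 g (Finset.mem_univ _) 1 (Finset.mem_univ _) (Finset.ne_of_mem_erase hg)).le
    rw [Finset.sum_const, Finset.card_erase_of_mem (Finset.mem_univ _), Finset.card_univ,
      nsmul_eq_mul, Nat.cast_sub Fintype.card_pos, Nat.cast_one, ← hN] at h5
    have := dd_nonneg (toAut n (φ 1)) (toAut n (φ 1))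
    linarith
  have h6 : δ * (2 * (N + N ^ 3)) = t := div_mul_cancel₀ t hden.ne'
  have h7 : (N - 1) * (ε - δ) ≤ N / 2 + N ^ 3 * δ := h4.trans h3
  nlinarith

/-- **Threshold theorem.** For every field `K` and every `ε > 0`: the classes of countable groups
that are `ε`-approximable and `1/4`-approximable over `K` coincide if and only if `ε ≤ 1/2`. -/
theorem result (K : Type u) [Field K] (ε : ℝ) (hε : 0 < ε) :
    (∀ (G : Type v) [Group G] [Countable G], Approximable K G ε ↔ Approximable K G (1 / 4)) ↔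
      ε ≤ 1 / 2 := by
  constructor
  · intro H
    by_contra hlt
    rw [not_le] at hlt
    obtain ⟨k, hk⟩ := pow_unbounded_of_one_lt (ε / (ε - 1 / 2)) (show (1 : ℝ) < 2 by norm_num)
    obtain ⟨G, i1, i2, -, hcard, hHB⟩ := exists_HB.{u, v} K k
    have h1 : Approximable K G (1 / 4) :=
      Approximable.mono (by norm_num) (approximable_of_fintype (K := K) (G := G))
    refine not_approximable hHB ?_ ((H G).2 h1)
    rw [hcard]
    push_cast
    rw [div_lt_iff₀ (by linarith)] at hk
    linarith
  · intro hle G _ _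
    constructor
    · intro h
      exact Approximable.mono (by norm_num) (Approximable.half hε h)
    · intro h
      exact Approximable.mono hle (Approximable.half (by norm_num) h)

end Pool.Agent.Results.MP_7f7a01_al.Threshold
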